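import Mathlib
import Pool.Agent.Run7.h127.TF.Sharp

/-!
# Sets of small doubling and popular values of Freiman homomorphisms: the sharp bounds

Let `A` be a finite nonempty subset of an abelian group, `|A + A| ≤ K |A|`. A function `f` is called
popular on `A` (`Popular m ε A f`) if some `m` values of `f` are taken on at least `ε |A|` elements of `A`;
here `ε > 0` may be small, and for `m = 1` the condition is that ONE value is taken on `ε |A|` elements.
`Freiman A f` says that `f` is a Freiman homomorphism (of order 2) on `A`. All the targets are torsion-free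
abelian groups, for instance `ℤ`. The polynomial Freiman-Ruzsa conjecture in `ℤ` is a statement about
the torsion-free Freiman models `A ≅ A₁ ⊆ ℤ ^ d` of `A ⊆ ℤ`, and the Freiman homomorphisms of `A` are the
linear functions on the models.

1. There is a subset `A'` with `|A'| ≥ |A| / K ^ c`, `c = 2 * 10 ^ 7 log (2 m) / ε`, on which ALL the Freiman
   homomorphisms of `A` are constant which are popular on `A` or on `A'`. The values of the different
   homomorphisms may be popular on very different parts of `A`, whose intersections may be empty.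
2. For two sets, `|B + A| ≤ K (|B| |A|) ^ (1 / 2)`: if the `f i` are popular on `A`, then the corresponding
   functions `e i` are constant on a subset of `B` with at least `|B| / K ^ (c / 2)` elements; nothing is
   assumed about the values of the `e i` on `B`.
3. If the Freiman homomorphisms which are popular on `A` separate the points of `A`, for instance if
   `A ⊆ ℤ ^ d` and every coordinate has a value which is taken on at least `ε |A|` elements of `A`, then
   `|A + A|` and `|A - A|` are at least `|A| ^ (1 + c' ε)`; for two sets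
   `|B + A| ≥ |A| ^ (1 / 2) |B| ^ (1 / 2 + c' ε)` where only the coordinates of `A` need to have popular values.
4. Hence the conclusion of Q1 holds for all such `A ⊆ ℤ`, with a constant of the order of `log (2 m) / ε`.
5. The same for products of sets of positive integers: `|A B| ≥ |A| ^ (1 / 2) |B| ^ (1 / 2 + c' ε)` if for every
   prime `p` the `p`-adic valuation has some `m` values which are taken on at least `ε |A|` elements
   of `A`; for instance if no prime divides more than `(1 - ε) |A|` elements of `A`.
6. The order `1 / ε` of the exponent is the right one: for `ε = 1 / k` and each `c < k - 1` there are sets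
   `A ⊆ ℤ ^ k`, all of whose coordinates vanish on `ε |A|` elements, with `|A| > K ^ c`, `K = |A + A| / |A|`.
7. The order `log (2 m)` is the right one (`ε = 1`): `A = {0, …, m - 1} ^ k`, `K = 2 ^ k`, `|A| = K ^ (log₂ m)`.

Statement 1 of `MP_dd2a7c_co.PopularSubgroups` has, for arbitrary targets and up to a multiplier, the
exponent `4 * 10 ^ 10 η ^ (-4) log (2 m)` in place of `c`; here the dependence on `ε` is optimal, and
statements 2 and 5 (two different sets) have no counterpart there.

Proof. The basic inequality (`pair`): let `X`, `Y` be independent random variables in a torsion-free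
group with `D = H (X + Y) - (H (X) + H (Y)) / 2` and let `R` be a set of `m` elements. Then
`P (X ∈ R) (H (X) + H (Y)) ≤ 10 ^ 7 log (2 m) D`. If `D` is less than an absolute constant, then a stability
theorem says that `X` and `Y` are close to uniform on cosets of a finite subgroup, so almost
constant, and then `D ≥ (H (X) + H (Y)) / 6`. If not, one conditions on the event `X ∈ R`. The point is
that the inequality is linear in `P (X ∈ R)`: the coordinates of `X + Y` (now `X`, `Y` uniform on `A`, `B`)
are exposed one by one; given the previous coordinates `u` of `X` and `v` of `Y` the inequality has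
`P (X_i ∈ R_i | u)` times the entropy of `Y_i` given `v`, and since `u` and `v` are independent the
mean of the product is the product of the means, `P (X_i ∈ R_i) ≥ ε` times the conditional entropy of
`Y_i` (`step`). So `ε H (Y) ≤ 10 ^ 7 log (2 m) D` (`multi`), and the most popular value of the vector of all
the coordinates gives 2. For 1 one minimises `h (B + A') - (1 / 2 + l) (log |B| + log |A'|)` over the pairs
of subsets of a pair of fibres (`robust`).
-/

set_option autoImplicit false

namespace Pool.Agent.Results.MP_626a77_co.PopularValues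

open Finset
open scoped Pointwise
open Pool.Agent.Run7.h127.TF

universe u

theorem result :
    -- 1. all the popular homomorphisms are constant on a large subset
    (∀ (Γ : Type u) [AddCommGroup Γ] [DecidableEq Γ] (K ε : ℝ) (m : ℕ) (A : Finset Γ),
      A.Nonempty → ((A + A).card : ℝ) ≤ K * A.card → 1 ≤ m → 0 < ε →
      ∃ A' ⊆ A, A'.Nonempty ∧
        (A.card : ℝ) ≤ K ^ (2 * 10 ^ 7 * Real.log (2 * m) / ε) * A'.card ∧
        ∀ (V : Type u) [AddCommGroup V] (g : Γ → V), TorsionFree V → Freiman A g →
          (Popular m ε A g ∨ Popular m ε A' g) → ∀ a ∈ A', ∀ b ∈ A', g a = g b) ∧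
    -- 2. two sets
    (∀ (Γ : Type u) [AddCommGroup Γ] [DecidableEq Γ] (ι : Type u) (V : ι → Type u)
      [∀ i, AddCommGroup (V i)] (K ε : ℝ) (m : ℕ) (B A : Finset Γ) (e f : ∀ i, Γ → V i),
      (∀ i, TorsionFree (V i)) → B.Nonempty → A.Nonempty →
      ((B + A).card : ℝ) ≤ K * Real.sqrt (B.card * A.card) → 1 ≤ m → 0 < ε →
      (∀ i, ∀ b ∈ B, ∀ a ∈ A, ∀ b' ∈ B, ∀ a' ∈ A, b + a = b' + a' →
        e i b + f i a = e i b' + f i a') →
      (∀ i, Popular m ε A (f i)) →
      ∃ B' ⊆ B, B'.Nonempty ∧ (B.card : ℝ) ≤ K ^ (10 ^ 7 * Real.log (2 * m) / ε) * B'.card ∧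
        ∀ i, ∀ a ∈ B', ∀ b ∈ B', e i a = e i b) ∧
    -- 3. growth of the sumsets and difference sets
    (∀ (Γ : Type u) [AddCommGroup Γ] [DecidableEq Γ] (ι : Type u) (V : ι → Type u)
      [∀ i, AddCommGroup (V i)] (ε : ℝ) (m : ℕ) (A : Finset Γ) (f : ∀ i, Γ → V i),
      (∀ i, TorsionFree (V i)) → A.Nonempty → 1 ≤ m → 0 < ε → (∀ i, Freiman A (f i)) →
      (∀ i, Popular m ε A (f i)) → (∀ a ∈ A, ∀ b ∈ A, (∀ i, f i a = f i b) → a = b) →
      (A.card : ℝ) ^ (1 + ε / (10 ^ 7 * Real.log (2 * m))) ≤ (A + A).card ∧
        (A.card : ℝ) ^ (1 + ε / (10 ^ 7 * Real.log (2 * m))) ≤ (A - A).card) ∧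
    -- 4. the conclusion of Q1
    (∀ (ι : Type u) (V : ι → Type u) [∀ i, AddCommGroup (V i)] (K ε : ℝ) (m : ℕ) (A : Finset ℤ)
      (f : ∀ i, ℤ → V i), (∀ i, TorsionFree (V i)) → A.Nonempty →
      ((A + A).card : ℝ) ≤ K * A.card → 1 ≤ m → 0 < ε → ε ≤ 1 → (∀ i, Freiman A (f i)) →
      (∀ i, Popular m ε A (f i)) → (∀ a ∈ A, ∀ b ∈ A, (∀ i, f i a = f i b) → a = b) →
      Q1At (10 ^ 7 * Real.log (2 * m) / ε) K A) ∧
    -- 5. products of sets of positive integers
    (∀ (ε : ℝ) (m : ℕ) (B A : Finset ℕ), B.Nonempty → A.Nonempty → 0 ∉ B → 0 ∉ A → 1 ≤ m →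
      0 < ε → ε ≤ 1 → (∀ p : ℕ, p.Prime → Popular m ε A (fun a => padicValNat p a)) →
      (A.card : ℝ) ^ (1 / 2 : ℝ) * (B.card : ℝ) ^ (1 / 2 + ε / (10 ^ 7 * Real.log (2 * m))) ≤
        (B * A).card) ∧
    -- 6. the exponent has to grow like `1 / ε`
    (∀ (k : ℕ) (c : ℝ), 0 ≤ c → c < k - 1 → ∃ A : Finset (Fin k → ℤ), A.Nonempty ∧
      (∀ i, Popular 1 (1 / k) A (fun a => a i)) ∧ (((A + A).card : ℝ) / A.card) ^ c < A.card) ∧
    -- 7. the exponent has to grow like `log m`
    (∀ m k : ℕ, ∃ A : Finset (Fin k → ℤ), A.card = m ^ k ∧ (A + A).card ≤ 2 ^ k * A.card ∧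
      ∀ i, Popular m 1 A (fun a => a i)) := by
  refine ⟨?_, ?_, ?_, ?_, ?_, sharp_eps, sharp_m⟩
  · intro Γ _ _ K ε m A hA hK hm hε
    exact popular hA hK hm hε
  · intro Γ _ _ ι V _ K ε m B A e f hV hB hA hK hm hε hef hf
    exact two_sets hV hB hA hK e f hef hm hε hf
  · intro Γ _ _ ι V _ ε m A f hV hA hm hε hfr hf hsep
    exact growth_self hV hA f hfr hm hε hf hsep
  · intro ι V _ K ε m A f hV hA hK hm hε hε1 hfr hf hsep
    exact q1At hV hA hK f hfr hm hε hε1 hf hsep
  · intro ε m B A hB hA hB0 hA0 hm hε hε1 hf
    exact growth_prod hB hA hB0 hA0 hm hε hε1 hf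

end Pool.Agent.Results.MP_626a77_co.PopularValues
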