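import Pool.Agent.Run7.h127.SP.Floor
import Pool.Agent.Run7.h127.SN.Sharp
import Pool.Agent.Run7.h127.SP.IntLow

/-!
# Freiman–Ruzsa and Freiman–Bilu with the sharp rank, proper progressions and (almost) polynomial bounds

A finite set `A` of doubling `K` in a torsion-free abelian group (for example `ℤ`) is covered by
`(2 K) ^ O_ε((1 + log (1 + log (2 K))) ^ 2)` translates of a PROPER generalised arithmetic
progression of rank at most `(1 + ε) log₂ K` and size at most `|A|`, and by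
`exp (O(log (2 K) ^ 5 (1 + log (1 + log (2 K))) ^ 2 / δ ^ 4))` translates of one of rank at most
`⌊log₂ K + δ⌋`. The rank is best possible.

The symmetric progression `{∑ c i • v i : |c i| ≤ L i}` is the image of `ℤ ^ d ∩ B` for the box
`B = ∏ [-L i, L i]`, so this is a covering by translates of a centred convex progression of
dimension `d` and volume `∏ (2 L i + 1)`.
-/

set_option autoImplicit false
open scoped Pointwise

namespace Pool.Agent.Results.MP_626a77_co.SharpNearPFR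

universe u

/-- Freiman-Ruzsa theorem with the sharp rank, proper progressions and almost polynomially many
translates (i), the rank `⌊log₂ K + δ⌋` (ii), optimality of the rank in `ℤ ^ d` and in `ℤ` (iii). -/
theorem result :
    (∀ (Γ : Type u) [AddCommGroup Γ] [IsAddTorsionFree Γ] [DecidableEq Γ] (A : Finset Γ),
      A.Nonempty → ∀ K : ℝ, ((A + A).card : ℝ) ≤ K * A.card →
      (∀ ε : ℝ, 0 < ε → ε ≤ 1 →
        ∃ (d : ℕ) (v : Fin d → Γ) (L : Fin d → ℕ) (T : Finset Γ),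
          (d : ℝ) ≤ (1 + ε) * Real.logb 2 K ∧
          (∀ c c' : Fin d → ℤ, (∀ i, |c i| ≤ L i) → (∀ i, |c' i| ≤ L i) →
            ∑ i, c i • v i = ∑ i, c' i • v i → c = c') ∧
          ∏ i, (2 * L i + 1) ≤ A.card ∧
          (T.card : ℝ) ≤ (2 * K) ^ (10 ^ 23 * (1 + Real.log (1 + Real.log (2 * K))) ^ 2 / ε ^ 4) ∧
          ∀ a ∈ A, ∃ t ∈ T, ∃ c : Fin d → ℤ, (∀ i, |c i| ≤ L i) ∧ a = t + ∑ i, c i • v i) ∧
      (∀ δ : ℝ, 0 < δ → δ ≤ 1 →
        ∃ (d : ℕ) (v : Fin d → Γ) (L : Fin d → ℕ) (T : Finset Γ),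
          d ≤ ⌊Real.logb 2 K + δ⌋₊ ∧
          (∀ c c' : Fin d → ℤ, (∀ i, |c i| ≤ L i) → (∀ i, |c' i| ≤ L i) →
            ∑ i, c i • v i = ∑ i, c' i • v i → c = c') ∧
          ∏ i, (2 * L i + 1) ≤ A.card ∧
          (T.card : ℝ) ≤ Real.exp (10 ^ 24 * Real.log (2 * K) ^ 5 *
            (1 + Real.log (1 + Real.log (2 * K))) ^ 2 / δ ^ 4) ∧
          ∀ a ∈ A, ∃ t ∈ T, ∃ c : Fin d → ℤ, (∀ i, |c i| ≤ L i) ∧ a = t + ∑ i, c i • v i)) ∧
    (∀ (d : ℕ) (C : ℝ), ∃ A : Finset (Fin d → ℤ), A.Nonempty ∧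
      ((A + A).card : ℝ) ≤ 2 ^ d * A.card ∧
      ∀ (d' : ℕ) (ψ : (Fin d' → ℤ) →+ (Fin d → ℤ)) (T : Finset (Fin d → ℤ)), (T.card : ℝ) ≤ C →
        (∀ a ∈ A, ∃ t ∈ T, ∃ c : Fin d' → ℤ, a = t + ψ c) → d ≤ d') ∧
    (∀ d C : ℕ, 1 ≤ d → ∃ A : Finset ℤ, A.Nonempty ∧ (A + A).card ≤ 2 ^ d * A.card ∧
      ∀ (r : ℕ) (v : Fin r → ℤ) (L : Fin r → ℕ) (T : Finset ℤ), r < d → T.card ≤ C →
        ∏ i, (2 * L i + 1) ≤ A.card →
        ¬ ∀ a ∈ A, ∃ t ∈ T, ∃ c : Fin r → ℤ, (∀ i, |c i| ≤ L i) ∧ a = t + ∑ i, c i • v i) := by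
  refine ⟨?_, fun d C => Pool.Agent.Run7.h127.SN.optimal d C,
    fun d C hd => Pool.Agent.Run7.h127.SP.int_low d C hd⟩
  intro Γ _ _ _ A hA K hK
  refine ⟨fun ε hε hε1 => ?_, fun δ hδ hδ1 => Pool.Agent.Run7.h127.SP.floor_tf hA hK hδ hδ1⟩
  obtain ⟨d, v, L, T, h1, h2, h3, h4, h5⟩ := Pool.Agent.Run7.h127.SP.gap_tf hA hK hε hε1
  refine ⟨d, v, L, T, ?_, h2, h3, h4, h5⟩
  have hlog : 0 < Real.log 2 := Real.log_pos (by norm_num)
  rw [Real.logb, ← mul_div_assoc, le_div_iff₀ hlog]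
  exact h1

end Pool.Agent.Results.MP_626a77_co.SharpNearPFR
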