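import Pool.Agent.Run7.h127.SD.Single

/-!
# The dimension of sets with small sums of dilates

If `|A + q · A| ≤ K |A|` in a group without `q`-torsion, a subset of density polynomial in `1 / K` has
dimension at most `(1 + ε) log_q K`.
-/

set_option autoImplicit false
open scoped Pointwise

namespace Pool.Agent.Results.MP_626a77_co.SumsOfDilates

universe u w

/-- The dimension of a subset of an abelian group: the rank of the subgroup generated by the
differences of its elements. -/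
noncomputable def dim {W : Type w} [AddCommGroup W] (S : Set W) : ℕ :=
  Module.finrank ℤ (Submodule.span ℤ (S - S))

/-- Sets with `|A + q · A| ≤ K |A|` have subsets of density at least a power of `1 / K` and
dimension at most `(1 + ε) log_q K`, and no bound below `log_(q+1) K` is possible. -/
theorem result :
    (∀ (Γ : Type u) [AddCommGroup Γ] [DecidableEq Γ] (q : ℕ), 2 ≤ q →
      (∀ a b : Γ, q • a = q • b → a = b) →
      ∀ A : Finset Γ, A.Nonempty →
      ∀ K : ℝ, ((A + A.image fun a => q • a).card : ℝ) ≤ K * A.card →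
      ∀ ε : ℝ, 0 < ε → ε ≤ 1 →
      ∃ A' A'' : Finset Γ, A' ⊆ A'' ∧ A'' ⊆ A ∧ A'.Nonempty ∧
        (A.card : ℝ) ≤ K ^ (2 * 10 ^ 7 * (Nat.log 2 q + 1) / ε ^ 2) * A'.card ∧
        (∀ (W : Type w) [AddCommGroup W] [IsAddTorsionFree W] (g : Γ → W),
          IsAddFreimanHom (q + 1) (A'' : Set Γ) Set.univ g →
            (dim (g '' (A' : Set Γ)) : ℝ) ≤ (1 + ε) * Real.logb q K ∧
            (dim (g '' (A'' : Set Γ)) : ℝ) ≤ (1 + ε) * Real.logb q K + 1) ∧
        ∃ F : Finset Γ, (F.card : ℝ) ≤ K ^ (2 * 10 ^ 7 * (Nat.log 2 q + 1) / ε ^ 2 + 2) ∧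
          A ⊆ F + (A' - A')) ∧
    (∀ (q d : ℕ) (C : ℝ), ∃ A : Finset (Fin d → ℤ), A.Nonempty ∧
      ((A + A.image fun a => q • a).card : ℝ) ≤ ((q + 1 : ℝ) ^ d) * A.card ∧
      ∀ A' : Finset (Fin d → ℤ), A' ⊆ A → (A.card : ℝ) ≤ ((q + 1 : ℝ) ^ d) ^ C * A'.card →
        d ≤ dim (A' : Set (Fin d → ℤ))) := by
  refine ⟨?_, ?_⟩
  · intro Γ _ _ q hq hΓ A hA K hK ε hε hε1
    obtain ⟨A', A'', h1, h2, h3, h4, h5, h6⟩ :=
      Pool.Agent.Run7.h127.SD.single.{u, w} hq hΓ hA hK hε hε1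
    refine ⟨A', A'', h1, h2, h3, h4, ?_, h6⟩
    intro W _ _ g hg
    obtain ⟨h7, h8⟩ := h5 W g hg
    have hlog : 0 < Real.log q := Real.log_pos (by exact_mod_cast (by omega : 1 < q))
    constructor
    · rw [Real.logb, ← mul_div_assoc, le_div_iff₀ hlog]
      exact h7
    · rw [Real.logb, ← mul_div_assoc, div_add' _ _ _ hlog.ne', le_div_iff₀ hlog, one_mul]
      exact h8
  · intro q d C
    obtain ⟨A, h1, h2, h3⟩ := Pool.Agent.Run7.h127.SD.sharp q d C
    exact ⟨A, h1, h2, fun A' hA' h4 => h3 A' hA' h4⟩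

end Pool.Agent.Results.MP_626a77_co.SumsOfDilates
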