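import Pool.Agent.Run7.h715.TA.Univ
import Pool.Agent.Run7.h912.DG.Q1

/-!
# The 2-adic structure of all Freiman homomorphisms of a set of integers with small doubling

`Hom A f`: `f : ℤ → ℤ` is a Freiman homomorphism (of order two) on `A`. `Close A m x y`:
`f x ≡ f y` modulo `2 ^ m` for all of them. `keep T a` is the integer which has the binary (2-adic)
digits of `a` at the places in `T` and the digit `0` at all other places (`Pool.Agent.Run7.h912.DG`).
-/

set_option autoImplicit false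

namespace Pool.Agent.Results.MP_626a77_co.TwoAdicUniversal

open Finset Run7.h912.DG Run7.h715.TA Pool.Agent.Y806.DF
open scoped Pointwise

/-- Let `A` be a finite nonempty set of integers with `|A + A| ≤ K |A|`.
(1) Let `f 0, …, f (d - 1)` be any Freiman homomorphisms of `A` into `ℤ` which separate the points of
`A` (`d` arbitrary). There are `A' ⊆ A`, `|A| ≤ K ^ 750 |A'|`, and sets `J l` of binary places, with at
most `6300 log K` maximal intervals altogether and `2 ^ (∑ |J l|) ≤ K ^ 2000 |A|`, such that for all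
`x, y` in `A'` and all `m` the integers `f l x, f l y` are congruent modulo `2 ^ m` for all `l` iff
this holds for the integers in which only the digits at the places in `J l` are kept. The number of the
classes of `A'` is `2 ^ (∑ |J l ∩ [0, m)|)` up to a factor `K ^ 2750`, for every `m`.
(2) There are finitely many Freiman homomorphisms for which (1) holds and for which the
congruences modulo `2 ^ m` are those given by all Freiman homomorphisms of `A` into `ℤ`.
(3) If `A` is Freiman isomorphic to a finite set `S ⊆ ℤ ^ d` which is closed under replacing binary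
digits by `0`, then the conclusion of Q1 holds. -/
theorem result (K : ℝ) (A : Finset ℤ) (hA : A.Nonempty) (hK : ((A + A).card : ℝ) ≤ K * A.card) :
    (∀ (d : ℕ) (f : Fin d → ℤ → ℤ), (∀ l, Hom A (f l)) →
      (∀ x ∈ A, ∀ y ∈ A, (∀ l, f l x = f l y) → x = y) →
      ∃ (J : Fin d → Finset ℕ) (A' : Finset ℤ), A' ⊆ A ∧ (A.card : ℝ) ≤ K ^ 750 * A'.card ∧
        (2 : ℝ) ^ (∑ l, (J l).card) ≤ K ^ 2000 * A.card ∧
        ((∑ l, ((J l).filter (fun j => j + 1 ∉ J l)).card : ℕ) : ℝ) ≤ 6300 * Real.log K ∧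
        (∀ x ∈ A', ∀ y ∈ A', ∀ m : ℕ, (∀ l, (2 : ℤ) ^ m ∣ f l x - f l y) ↔
          ∀ l, (2 : ℤ) ^ m ∣ keep (J l) (f l x) - keep (J l) (f l y)) ∧
        ∀ m : ℕ,
          (A'.image (fun x l => f l x % 2 ^ m)).card ≤
            2 ^ (∑ l, ((J l).filter (fun j => j < m)).card) ∧
          (2 : ℝ) ^ (∑ l, ((J l).filter (fun j => j < m)).card) ≤
            K ^ 2750 * (A'.image (fun x l => f l x % 2 ^ m)).card) ∧
    (∃ (d : ℕ) (f : Fin d → ℤ → ℤ), (∀ l, Hom A (f l)) ∧
      (∀ x ∈ A, ∀ y ∈ A, (∀ l, f l x = f l y) → x = y) ∧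
      ∀ x ∈ A, ∀ y ∈ A, ∀ m : ℕ, Close A m x y ↔ ∀ l, (2 : ℤ) ^ m ∣ f l x - f l y) ∧
    (∀ (d : ℕ) (S : Finset (Fin d → ℤ)) (f : (Fin d → ℤ) → ℤ),
      (∀ x ∈ S, ∀ T : Fin d → Finset ℕ, (fun l => keep (T l) (x l)) ∈ S) →
      IsAddFreimanIso 2 (S : Set (Fin d → ℤ)) (A : Set ℤ) f →
      ∃ (s : ℕ) (B : Set (Fin s → ℝ)) (v : Fin s → ℤ) (T : Finset ℤ),
        (s : ℝ) ≤ 500 * Real.log (2 * K ^ 4400) ∧
        Convex ℝ B ∧ IsCompact B ∧ (interior B).Nonempty ∧ (∀ x ∈ B, -x ∈ B) ∧
        {x : Fin s → ℤ | (fun i => (x i : ℝ)) ∈ B}.ncard ≤ A.card ∧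
        (T.card : ℝ) ≤ 5000 * (K ^ 4400) ^ 5000 ∧
        ∀ a ∈ A, ∃ t ∈ T, ∃ x : Fin s → ℤ,
          (fun i => (x i : ℝ)) ∈ B ∧ a = t + ∑ i, v i * x i) := by
  refine ⟨fun d f hf hinj => fam A hA K hK d f hf hinj, ?_, ?_⟩
  · obtain ⟨d, f, h1, h2, h3⟩ := exists_fam A
    exact ⟨d, f, h1, h3, h2⟩
  · intro d S f hE hf
    have hf' := isAddFreimanIso_two.1 hf
    have himg : S.image f = A := by
      apply Finset.coe_injective
      rw [Finset.coe_image]
      exact hf'.1.image_eq
    have hS : S.Nonempty := by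
      rw [← himg] at hA
      exact Finset.image_nonempty.1 hA
    have hE' : Erase S := hE
    obtain ⟨r, n, ψ, g1, g2, g3, g4⟩ := hered S hS hE' f
      (fun a ha b hb h => hf'.1.injOn ha hb h)
      (fun a ha b hb c hc e he => hf'.2 a ha b hb c hc e he) K (by rw [himg]; exact hK)
    rw [himg] at g3 g4
    obtain ⟨s, B, θ, H, T, q1', q2', q3', q4', q5', q6'⟩ := q1 A hA K hK g1 g2 g3 g4
    have hH : ∀ h ∈ H, h = 0 := by
      intro h hh
      by_contra h0
      have hinj : Function.Injective fun k : ℕ => (⟨(k : ℤ) * h, by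
          have := H.nsmul_mem hh k
          simpa using this⟩ : H) := by
        intro a b hab
        have h1 : (a : ℤ) * h = (b : ℤ) * h := congrArg Subtype.val hab
        have h2 : (a : ℤ) = b := mul_right_cancel₀ h0 h1
        exact_mod_cast h2
      exact not_finite_iff_infinite.2 (Infinite.of_injective _ hinj) q3'
    have hHc : 1 ≤ Nat.card H := Nat.one_le_iff_ne_zero.2 (Nat.card_ne_zero.2 ⟨⟨0⟩, q3'⟩)
    refine ⟨s, B, fun i => θ (Pi.single i 1), T, q1', q2'.1, q2'.2.1, q2'.2.2.1, q2'.2.2.2, ?_,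
      q5', ?_⟩
    · have h1 : (lat B).ncard ≤ (lat B).ncard * Nat.card H := Nat.le_mul_of_pos_right _ hHc
      exact h1.trans q4'
    · intro a ha
      obtain ⟨t, ht, x, hx, h, hh, e⟩ := q6' a ha
      refine ⟨t, ht, x, hx, ?_⟩
      rw [e, hH h hh, add_zero]
      congr 1
      have h1 : x = ∑ i, x i • (Pi.single i (1 : ℤ) : Fin s → ℤ) := by
        funext j
        rw [Finset.sum_apply]
        simp [Pi.single_apply]
      conv_lhs => rw [h1]
      rw [map_sum]
      refine Finset.sum_congr rfl fun i _ => ?_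
      rw [map_zsmul, smul_eq_mul, mul_comm]

end Pool.Agent.Results.MP_626a77_co.TwoAdicUniversal
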